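import Pool.Agent.H54.CX.CovAct

/-!
# Proper actions on two-dimensional complexes of nonpositive curvature: directed colimits
-/

set_option autoImplicit false

namespace Pool.Agent.H54.CX

open Cls CV Pool.Agent.H98.FJ

variable {V : Type} {G : Type} [Group G] [MulAction G V]

/-- the subcomplex of the translates of the simplices with vertices in `F` -/
def sub (X : Cpx V) (G : Type) [Group G] [MulAction G V] (F : Set V) : Cpx V where
  Edge a b := X.Edge a b ∧ ∃ g : G, g • a ∈ F ∧ g • b ∈ F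
  Tri a b c := X.Tri a b c ∧ ∃ g : G, g • a ∈ F ∧ g • b ∈ F ∧ g • c ∈ F
  len := X.len
  ne a b h := X.ne a b h.1
  symm a b h := ⟨X.symm a b h.1, h.2.imp fun _ h => ⟨h.2, h.1⟩⟩
  edge a b c h := ⟨X.edge a b c h.1, h.2.imp fun _ h => ⟨h.1, h.2.1⟩⟩
  rot a b c h := ⟨X.rot a b c h.1, h.2.imp fun _ h => ⟨h.2.1, h.2.2, h.1⟩⟩
  swap a b c h := ⟨X.swap a b c h.1, h.2.imp fun _ h => ⟨h.2.1, h.1, h.2.2⟩⟩
  len_symm a b h := X.len_symm a b h.1
  pos a b h := X.pos a b h.1
  lt a b c h := X.lt a b c h.1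

variable {X : Cpx V}

theorem sub_inv (hX : X.Inv G) (F : Set V) : (sub X G F).Inv G where
  edge g a b h := ⟨hX.edge g a b h.1, by
    obtain ⟨k, h1, h2⟩ := h.2
    exact ⟨k * g⁻¹, by rwa [mul_smul, inv_smul_smul], by rwa [mul_smul, inv_smul_smul]⟩⟩
  tri g a b c h := ⟨hX.tri g a b c h.1, by
    obtain ⟨k, h1, h2, h3⟩ := h.2
    exact ⟨k * g⁻¹, by rwa [mul_smul, inv_smul_smul], by rwa [mul_smul, inv_smul_smul],
      by rwa [mul_smul, inv_smul_smul]⟩⟩
  len g a b h := hX.len g a b h.1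

theorem sub_le (F : Set V) : Sub (sub X G F) X := ⟨fun _ _ h => h.1, fun _ _ _ h => h.1⟩

theorem sub_mono {F F' : Set V} (h : F ⊆ F') : Sub (sub X G F) (sub X G F') :=
  ⟨fun _ _ e => ⟨e.1, e.2.imp fun _ e => ⟨h e.1, h e.2⟩⟩,
   fun _ _ _ e => ⟨e.1, e.2.imp fun _ e => ⟨h e.1, h e.2.1, h e.2.2⟩⟩⟩

theorem sub_link (h : X.Link) (F : Set V) : (sub X G F).Link := fun a n b hn hb hinj ht =>
  h a n b hn hb hinj (fun i hi => (ht i hi).1)

/-- the groups of the lifts for the subcomplexes of finite type are in the class -/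
theorem sub_mem {C : (G : Type) → [Group G] → Prop} (hC : Cat2 C) (hX : X.Inv G) (hl : X.Link)
    (hs : ∀ v : V, Finite (MulAction.stabilizer G v)) (F : Set V) (hF : F.Finite) (x₀ : V) :
    C (Gam (sub X G F) G (sub_inv hX F) x₀) := by
  refine hC _ (CV (sub X G F) x₀) (cov (sub X G F) x₀) cov_sc (cov_link (sub_link hl F) x₀)
    (cov_inv _ x₀) (finite_stab hs) ?_
  refine cov_cocompact (sub_inv hX F) (insert x₀ F) (hF.insert x₀) ?_ ?_ ?_
  · intro p
    obtain ⟨q, b, h⟩ := p
    rw [en_eq (p := ⟨q, b, h⟩) h]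
    induction h with
    | base => exact ⟨1, by rw [one_smul]; exact Or.inl rfl⟩
    | @step b c q h h' ih =>
      rcases h' with h' | h'
      · rw [← h']; exact ih
      · obtain ⟨g, -, h2⟩ := h'.2
        exact ⟨g, Or.inr h2⟩
  · intro a b h
    exact h.2.imp fun _ e => ⟨Or.inr e.1, Or.inr e.2⟩
  · intro a b c h
    exact h.2.imp fun _ e => ⟨Or.inr e.1, Or.inr e.2.1, Or.inr e.2.2⟩

/-- an edge path is contained in a subcomplex of finite type -/
theorem exists_sub_path {a b : V} {q : Cls X} (h : PC X a b q) :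
    ∃ (F : Finset V) (r : Cls (sub X G (F : Set V))), PC (sub X G (F : Set V)) a b r := by
  classical
  induction h with
  | base => exact ⟨∅, _, PC.base⟩
  | @step b c q h h' ih =>
    obtain ⟨F, r, hr⟩ := ih
    refine ⟨F ∪ {b, c}, _, PC.step (hr.incl (sub_mono (by
      intro x hx; simp only [Finset.coe_union]; exact Or.inl hx))) ?_⟩
    rcases h' with h' | h'
    · exact Or.inl h'
    · exact Or.inr ⟨h', 1, by simp, by simp⟩

/-- a homotopy is contained in a subcomplex of finite type -/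
theorem exists_sub_htp {l m : List V} (h : X.Htp l m) :
    ∃ F : Finset V, ∀ F' : Finset V, F ⊆ F' → (sub X G (F' : Set V)).Htp l m := by
  classical
  induction h with
  | rel l m h =>
    cases h with
    | stay u w a => exact ⟨∅, fun F' _ => Relation.EqvGen.rel _ _ (Cpx.Move.stay u w a)⟩
    | back u w a b h =>
      refine ⟨{a, b}, fun F' hF => Relation.EqvGen.rel _ _ (Cpx.Move.back u w a b ?_)⟩
      exact ⟨h, 1, by rw [one_smul]; exact hF (by simp), by rw [one_smul]; exact hF (by simp)⟩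
    | tri u w a b c h =>
      refine ⟨{a, b, c}, fun F' hF => Relation.EqvGen.rel _ _ (Cpx.Move.tri u w a b c ?_)⟩
      exact ⟨h, 1, by rw [one_smul]; exact hF (by simp), by rw [one_smul]; exact hF (by simp),
        by rw [one_smul]; exact hF (by simp)⟩
  | refl l => exact ⟨∅, fun F' _ => Relation.EqvGen.refl _⟩
  | symm l m h ih =>
    obtain ⟨F, hF⟩ := ih
    exact ⟨F, fun F' h => (hF F' h).symm _ _⟩
  | trans l m n h h' ih ih' =>
    obtain ⟨F, hF⟩ := ih
    obtain ⟨F₁, hF₁⟩ := ih'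
    exact ⟨F ∪ F₁, fun F' h => (hF F' (Finset.union_subset_left h)).trans _ _ _
      (hF₁ F' (Finset.union_subset_right h))⟩

/-- `G` is the directed colimit of the groups of the lifts -/
theorem isColimit (hX : X.Inv G) (hsc : X.SC) (x₀ : V) :
    IsColimit (ι := Finset V) (G := fun F => Gam (sub X G (F : Set V)) G (sub_inv hX _) x₀)
      (fun F F' h => Gam.map (sub_mono (Finset.coe_subset.2 h)) (sub_inv hX _) (sub_inv hX _) x₀)
      (fun F => Gam.proj (sub X G (F : Set V)) G (sub_inv hX _) x₀) where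
  nonempty := ⟨∅⟩
  directed F F' := by
    classical
    exact ⟨F ∪ F', Finset.subset_union_left, Finset.subset_union_right⟩
  map_id F h x := Gam.ext rfl (incl_refl _ _)
  map_comp F F' F'' h h' h'' x := Gam.ext rfl (incl_incl _ _ _ _)
  compat F F' h x := rfl
  surj g := by
    obtain ⟨-, h1, -⟩ := sc_iff.1 hsc
    obtain ⟨q, hq⟩ := h1 x₀ (g • x₀)
    obtain ⟨F, r, hr⟩ := exists_sub_path (G := G) hq
    exact ⟨F, ⟨g, r, hr⟩, rfl⟩
  ker F x hx := by
    classical
    have hg : x.g = 1 := hx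
    have h1 : PC (sub X G (F : Set V)) x₀ x₀ x.q := by
      have := x.pc
      rwa [hg, one_smul] at this
    obtain ⟨l, hl, hlq⟩ := h1.exists_list
    have h2 : X.Path l x₀ x₀ := by
      refine ⟨?_, hl.head, hl.last⟩
      refine hl.chain.imp ?_
      rintro a b (h | h)
      · exact Or.inl h
      · exact Or.inr h.1
    obtain ⟨F₁, hF₁⟩ := exists_sub_htp (G := G) (hsc.contr x₀ l h2)
    refine ⟨F ∪ F₁, Finset.subset_union_left, Gam.ext hg ?_⟩
    show incl _ x.q = pt _ x₀
    rw [← hlq, incl_mk]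
    exact mk_eq.2 (hF₁ _ Finset.subset_union_right)

/-- **Theorem.** A group which acts with finite stabilisers on a simply connected two-dimensional complex of nonpositive
curvature is in the class. -/
theorem main {C : (G : Type) → [Group G] → Prop} (hC : Cat2 C) (hcol : ColimClosed C)
    (hX : X.Inv G) (hsc : X.SC) (hl : X.Link)
    (hs : ∀ v : V, Finite (MulAction.stabilizer G v)) : C G := by
  obtain ⟨x₀⟩ := hsc.nonempty
  exact hcol _ _ _ _ _ (isColimit hX hsc x₀) (fun F => sub_mem hC hX hl hs _ F.finite_toSet x₀)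

end Pool.Agent.H54.CX
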