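import Pool.Agent.H98.FJ.Closed

/-!
# Two-dimensional simplicial complexes with edge lengths

Simplicial complexes of dimension at most two whose triangles are Euclidean triangles: the datum is the set of the
edges, the set of the triangles and the lengths of the edges. Edge paths are lists of vertices such that consecutive
vertices are equal or span an edge.
-/

set_option autoImplicit false

namespace Pool.Agent.H54.CX

open Pool.Agent.H98.FJ

/-- A simplicial complex of dimension at most two, with edge lengths: `V` is the set of the vertices. -/
structure Cpx (V : Type) where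
  /-- `a` and `b` are the two vertices of an edge -/
  Edge : V → V → Prop
  /-- `a`, `b` and `c` are the three vertices of a triangle -/
  Tri : V → V → V → Prop
  /-- the length of the edge -/
  len : V → V → ℝ
  ne : ∀ a b, Edge a b → a ≠ b
  symm : ∀ a b, Edge a b → Edge b a
  edge : ∀ a b c, Tri a b c → Edge a b
  rot : ∀ a b c, Tri a b c → Tri b c a
  swap : ∀ a b c, Tri a b c → Tri b a c
  len_symm : ∀ a b, Edge a b → len a b = len b a
  pos : ∀ a b, Edge a b → 0 < len a b
  /-- the strict triangle inequality -/
  lt : ∀ a b c, Tri a b c → len a c < len a b + len b c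

namespace Cpx

variable {V : Type} (X : Cpx V)

/-- the angle at the vertex `a` of the Euclidean triangle `a b c` with the given edge lengths (law of cosines) -/
noncomputable def ang (a b c : V) : ℝ :=
  Real.arccos ((X.len a b ^ 2 + X.len a c ^ 2 - X.len b c ^ 2) / (2 * X.len a b * X.len a c))

/-- The link condition (nonpositive curvature): for every vertex `a`, every injective closed path
`b 0, b 1, …, b n = b 0` in the link of `a` has length at least `2π`. -/
def Link : Prop :=
  ∀ (a : V) (n : ℕ) (b : ℕ → V), 3 ≤ n → b n = b 0 → (∀ i j, i < j → j < n → b i ≠ b j) →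
    (∀ i, i < n → X.Tri a (b i) (b (i + 1))) →
    2 * Real.pi ≤ ∑ i ∈ Finset.range n, X.ang a (b i) (b (i + 1))

/-- equal or joined by an edge -/
def Near (a b : V) : Prop := a = b ∨ X.Edge a b

/-- The elementary moves of edge paths: a repeated vertex, going back along an edge, passing over a triangle. -/
inductive Move : List V → List V → Prop
  | stay (u w : List V) (a : V) : Move (u ++ a :: a :: w) (u ++ a :: w)
  | back (u w : List V) (a b : V) : X.Edge a b → Move (u ++ a :: b :: a :: w) (u ++ a :: w)
  | tri (u w : List V) (a b c : V) : X.Tri a b c → Move (u ++ a :: b :: c :: w) (u ++ a :: c :: w)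

/-- homotopic: joined by finitely many moves and inverses of moves -/
def Htp (l m : List V) : Prop := Relation.EqvGen X.Move l m

/-- `l` is an edge path from `a` to `b` -/
structure Path (l : List V) (a b : V) : Prop where
  chain : l.IsChain X.Near
  head : l.head? = some a
  last : l.getLast? = some b

/-- nonempty, connected, and every closed edge path is contractible -/
structure SC : Prop where
  nonempty : Nonempty V
  conn : ∀ a b, ∃ l, X.Path l a b
  contr : ∀ a l, X.Path l a a → X.Htp l [a]

/-- the group `G` acts by automorphisms which preserve the lengths -/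
structure Inv (G : Type) [Group G] [MulAction G V] : Prop where
  edge : ∀ (g : G) (a b : V), X.Edge a b → X.Edge (g • a) (g • b)
  tri : ∀ (g : G) (a b c : V), X.Tri a b c → X.Tri (g • a) (g • b) (g • c)
  len : ∀ (g : G) (a b : V), X.Edge a b → X.len (g • a) (g • b) = X.len a b

/-- there are only finitely many orbits of vertices, edges and triangles: every simplex is the translate of a simplex
with vertices in a finite set -/
def Cocompact (G : Type) [Group G] [MulAction G V] : Prop :=
  ∃ F : Set V, F.Finite ∧ (∀ a, ∃ g : G, g • a ∈ F) ∧
    (∀ a b, X.Edge a b → ∃ g : G, g • a ∈ F ∧ g • b ∈ F) ∧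
    (∀ a b c, X.Tri a b c → ∃ g : G, g • a ∈ F ∧ g • b ∈ F ∧ g • c ∈ F)

end Cpx

/-- The class contains the groups which act properly and cocompactly by isometries on a simply connected
two-dimensional Euclidean simplicial complex with the link condition (these are CAT(0) groups). -/
def Cat2 (C : (G : Type) → [Group G] → Prop) : Prop :=
  ∀ (G : Type) [Group G] (V : Type) [MulAction G V] (X : Cpx V), X.SC → X.Link → X.Inv G →
    (∀ v : V, Finite (MulAction.stabilizer G v)) → X.Cocompact G → C G

/-- The class is closed under directed colimits. -/
def ColimClosed (C : (G : Type) → [Group G] → Prop) : Prop :=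
  ∀ (ι : Type) [Preorder ι] (G : ι → Type) [∀ i, Group (G i)]
    (f : ∀ i j, i ≤ j → (G i →* G j)) (H : Type) [Group H] (φ : ∀ i, G i →* H),
    IsColimit f φ → (∀ i, C (G i)) → C H

end Pool.Agent.H54.CX
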