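import Pool.Agent.H54.CX.Gam

/-!
# The universal cover

Its vertices are the classes of the edge paths which start at `x₀`.
-/

set_option autoImplicit false

namespace Pool.Agent.H54.CX

open Cls

variable {V : Type}

/-- the vertices of the universal cover of the component of `x₀` -/
def CV (X : Cpx V) (x₀ : V) : Type := {q : Cls X // ∃ b, PC X x₀ b q}

namespace CV

variable {X : Cpx V} {x₀ : V}

/-- the end point -/
noncomputable def en (p : CV X x₀) : V := p.2.choose

theorem pc (p : CV X x₀) : PC X x₀ (en p) p.1 := p.2.choose_spec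

theorem en_eq {p : CV X x₀} {b : V} (h : PC X x₀ b p.1) : en p = b := by
  have h1 := (pc p).last
  rw [h.last] at h1
  exact (Option.some.inj h1).symm

theorem mul_en (p : CV X x₀) : p.1 * pt X (en p) = p.1 := (pc p).mul_pt

/-- the neighbour of `p` over `b` -/
noncomputable def nx (p : CV X x₀) (b : V) (h : X.Near (en p) b) : CV X x₀ :=
  ⟨p.1 * pt X b, b, (pc p).step h⟩

theorem nx_val (p : CV X x₀) (b : V) (h : X.Near (en p) b) : (nx p b h).1 = p.1 * pt X b := rfl

theorem en_nx (p : CV X x₀) (b : V) (h : X.Near (en p) b) : en (nx p b h) = b :=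
  en_eq ((pc p).step h)

theorem ext {p q : CV X x₀} (h : p.1 = q.1) : p = q := Subtype.ext h

end CV

open CV

/-- the universal cover -/
noncomputable def cov (X : Cpx V) (x₀ : V) : Cpx (CV X x₀) where
  Edge p q := X.Edge (en p) (en q) ∧ q.1 = p.1 * pt X (en q)
  Tri p q r := X.Tri (en p) (en q) (en r) ∧ q.1 = p.1 * pt X (en q) ∧ r.1 = p.1 * pt X (en r)
  len p q := X.len (en p) (en q)
  ne p q h e := X.ne _ _ h.1 (by rw [e])
  symm p q h := by
    refine ⟨X.symm _ _ h.1, ?_⟩
    rw [h.2, (pc p).step_back (Or.inr h.1)]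
  edge p q r h := ⟨X.edge _ _ _ h.1, h.2.1⟩
  rot p q r h := by
    have h1 : X.Edge (en p) (en q) := X.edge _ _ _ h.1
    refine ⟨X.rot _ _ _ h.1, ?_, ?_⟩
    · rw [h.2.1, h.2.2]
      have := tri h.1
      rw [← mul_en p, mul_assoc, mul_assoc, mul_assoc, ← mul_assoc (pt X (en p)), this]
    · rw [h.2.1, (pc p).step_back (Or.inr h1)]
  swap p q r h := by
    have h1 : X.Edge (en p) (en q) := X.edge _ _ _ h.1
    refine ⟨X.swap _ _ _ h.1, ?_, ?_⟩
    · rw [h.2.1, (pc p).step_back (Or.inr h1)]
    · rw [h.2.1, h.2.2]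
      have := tri h.1
      rw [← mul_en p, mul_assoc, mul_assoc, mul_assoc, ← mul_assoc (pt X (en p)), this]
  len_symm p q h := X.len_symm _ _ h.1
  pos p q h := X.pos _ _ h.1
  lt p q r h := X.lt _ _ _ h.1

theorem cov_link {X : Cpx V} (h : X.Link) (x₀ : V) : (cov X x₀).Link := by
  intro p n b hn hb hinj htri
  refine h (en p) n (fun i => en (b i)) hn (by rw [hb]) ?_ (fun i hi => (htri i hi).1)
  intro i j hij hj e
  refine hinj i j hij hj (CV.ext ?_)
  rw [(htri i (hij.trans hj)).2.1, (htri j hj).2.1]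
  exact congrArg (fun y => p.1 * pt X y) e

end Pool.Agent.H54.CX
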