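import Pool.Agent.H54.CX.CovSC

/-!
# The action of the group of the lifts on the universal cover
-/

set_option autoImplicit false

namespace Pool.Agent.H54.CX

open Cls CV

variable {V : Type} {X : Cpx V} {G : Type} [Group G] [MulAction G V] {hX : X.Inv G} {x₀ : V}

noncomputable instance : MulAction (Gam X G hX x₀) (CV X x₀) where
  smul x p := ⟨x.q * act hX x.g p.1, x.g • en p, x.pc.trans ((pc p).smul hX x.g)⟩
  one_smul p := CV.ext (by
    show pt X x₀ * act hX 1 p.1 = p.1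
    rw [act_one, (pc p).pt_mul])
  mul_smul x y p := CV.ext (by
    show (x.q * act hX x.g y.q) * act hX (x.g * y.g) p.1 = x.q * act hX x.g (y.q * act hX y.g p.1)
    rw [act_mul, map_mul, mul_assoc])

theorem smul_val (x : Gam X G hX x₀) (p : CV X x₀) : (x • p).1 = x.q * act hX x.g p.1 := rfl

theorem en_smul (x : Gam X G hX x₀) (p : CV X x₀) : en (x • p) = x.g • en p :=
  en_eq (x.pc.trans ((pc p).smul hX x.g))

theorem cov_inv (hX : X.Inv G) (x₀ : V) : (cov X x₀).Inv (Gam X G hX x₀) where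
  edge x p q h := by
    refine ⟨?_, ?_⟩
    · rw [en_smul, en_smul]; exact hX.edge _ _ _ h.1
    · rw [en_smul, smul_val, smul_val, mul_assoc, ← act_pt hX, ← map_mul, ← h.2]
  tri x p q r h := by
    refine ⟨?_, ?_, ?_⟩
    · rw [en_smul, en_smul, en_smul]; exact hX.tri _ _ _ _ h.1
    · rw [en_smul, smul_val, smul_val, mul_assoc, ← act_pt hX, ← map_mul, ← h.2.1]
    · rw [en_smul, smul_val, smul_val, mul_assoc, ← act_pt hX, ← map_mul, ← h.2.2]
  len x p q h := by
    show X.len (en (x • p)) (en (x • q)) = X.len (en p) (en q)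
    rw [en_smul, en_smul]
    exact hX.len _ _ _ h.1

/-- the class of an element which fixes a vertex is determined by its image -/
theorem stab_inj {x y : Gam X G hX x₀} {p : CV X x₀} (hx : x • p = p) (hy : y • p = p)
    (h : x.g = y.g) : x = y := by
  refine Gam.ext h ?_
  obtain ⟨r, hr, h1, -⟩ := ((pc p).smul hX x.g).exists_rev
  have e1 : x.q * act hX x.g p.1 = p.1 := congrArg Subtype.val hx
  have e2 : y.q * act hX x.g p.1 = p.1 := by rw [h]; exact congrArg Subtype.val hy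
  have e3 : x.q * act hX x.g p.1 * r = y.q * act hX x.g p.1 * r := by rw [e1, e2]
  rw [mul_assoc, mul_assoc, h1, x.pc.mul_pt] at e3
  have hyq : PC X x₀ (x.g • x₀) y.q := by rw [h]; exact y.pc
  rwa [hyq.mul_pt] at e3

theorem finite_stab (h : ∀ v : V, Finite (MulAction.stabilizer G v)) (p : CV X x₀) :
    Finite (MulAction.stabilizer (Gam X G hX x₀) p) := by
  have hf : ∀ x : MulAction.stabilizer (Gam X G hX x₀) p, x.1.g ∈ MulAction.stabilizer G (en p) := by
    intro x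
    have h1 : x.1 • p = p := x.2
    have h2 := congrArg en h1
    rwa [en_smul] at h2
  have := h (en p)
  refine Finite.of_injective (fun x => (⟨x.1.g, hf x⟩ : MulAction.stabilizer G (en p))) ?_
  intro x y hxy
  exact Subtype.ext (stab_inj x.2 y.2 (congrArg Subtype.val hxy))

/-- an element of `G` which maps the end point of a vertex of the cover to the end point of another one can be lifted -/
theorem exists_lift (hX : X.Inv G) (p p' : CV X x₀) (g : G) (h : g • en p = en p') :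
    ∃ x : Gam X G hX x₀, x.g = g ∧ x • p = p' := by
  obtain ⟨r, hr, -, h1⟩ := ((pc p).smul hX g).exists_rev
  have h2 : PC X x₀ (g • x₀) (p'.1 * r) := by
    refine (pc p').trans ?_
    rw [← h]; exact hr
  refine ⟨⟨g, p'.1 * r, h2⟩, rfl, CV.ext ?_⟩
  show p'.1 * r * act hX g p.1 = p'.1
  rw [mul_assoc, h1, h, mul_en]

/-- Cocompactness: if every vertex, edge and triangle of the component of `x₀` is the translate of one with vertices in
a finite set, the action on the cover is cocompact. -/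
theorem cov_cocompact (hX : X.Inv G) (F : Set V) (hF : F.Finite)
    (h0 : ∀ p : CV X x₀, ∃ g : G, g • en p ∈ F)
    (h1 : ∀ a b, X.Edge a b → ∃ g : G, g • a ∈ F ∧ g • b ∈ F)
    (h2 : ∀ a b c, X.Tri a b c → ∃ g : G, g • a ∈ F ∧ g • b ∈ F ∧ g • c ∈ F) :
    (cov X x₀).Cocompact (Gam X G hX x₀) := by
  classical
  -- the triples of vertices of the cover which are determined by the first one and the end points
  let T : Set (CV X x₀ × CV X x₀ × CV X x₀) :=
    {t | t.2.1.1 = t.1.1 * pt X (en t.2.1) ∧ t.2.2.1 = t.1.1 * pt X (en t.2.2)}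
  let P : V × V × V → CV X x₀ × CV X x₀ × CV X x₀ → Prop := fun v t =>
    t ∈ T ∧ ∃ g : G, g • en t.1 = v.1 ∧ g • en t.2.1 = v.2.1 ∧ g • en t.2.2 = v.2.2
  have hne : Nonempty (CV X x₀ × CV X x₀ × CV X x₀) := ⟨base X x₀, base X x₀, base X x₀⟩
  let c : V × V × V → CV X x₀ × CV X x₀ × CV X x₀ := fun v =>
    if h : ∃ t, P v t then h.choose else Classical.choice hne
  let S : Set (CV X x₀ × CV X x₀ × CV X x₀) := c '' (F ×ˢ (F ×ˢ F))
  have hS : S.Finite := (hF.prod (hF.prod hF)).image c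
  let F' : Set (CV X x₀) := (fun t => t.1) '' S ∪ ((fun t => t.2.1) '' S ∪ (fun t => t.2.2) '' S)
  have key : ∀ t ∈ T, (∃ g : G, g • en t.1 ∈ F ∧ g • en t.2.1 ∈ F ∧ g • en t.2.2 ∈ F) →
      ∃ x : Gam X G hX x₀, x • t.1 ∈ F' ∧ x • t.2.1 ∈ F' ∧ x • t.2.2 ∈ F' := by
    rintro t ht ⟨g, g1, g2, g3⟩
    have hex : ∃ t', P (g • en t.1, g • en t.2.1, g • en t.2.2) t' :=
      ⟨t, ht, g, rfl, rfl, rfl⟩
    have hc : P (g • en t.1, g • en t.2.1, g • en t.2.2) (c (g • en t.1, g • en t.2.1, g • en t.2.2)) := by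
      have : c (g • en t.1, g • en t.2.1, g • en t.2.2) = hex.choose := dif_pos hex
      rw [this]
      exact hex.choose_spec
    set t' := c (g • en t.1, g • en t.2.1, g • en t.2.2) with ht'
    have hmem : t' ∈ S := ⟨_, ⟨g1, g2, g3⟩, rfl⟩
    obtain ⟨hT', g', e1, e2, e3⟩ := hc
    simp only at e1 e2 e3
    have f1 : (g'⁻¹ * g) • en t.1 = en t'.1 := by rw [mul_smul, ← e1, inv_smul_smul]
    have f2 : (g'⁻¹ * g) • en t.2.1 = en t'.2.1 := by rw [mul_smul, ← e2, inv_smul_smul]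
    have f3 : (g'⁻¹ * g) • en t.2.2 = en t'.2.2 := by rw [mul_smul, ← e3, inv_smul_smul]
    obtain ⟨x, hx, hx1⟩ := exists_lift hX t.1 t'.1 (g'⁻¹ * g) f1
    have hx1' : x.q * act hX x.g t.1.1 = t'.1.1 := congrArg Subtype.val hx1
    have hx2 : x • t.2.1 = t'.2.1 := CV.ext (by
      rw [smul_val, ht.1, map_mul, ← mul_assoc, hx1', act_pt, hx, f2, ← hT'.1])
    have hx3 : x • t.2.2 = t'.2.2 := CV.ext (by
      rw [smul_val, ht.2, map_mul, ← mul_assoc, hx1', act_pt, hx, f3, ← hT'.2])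
    refine ⟨x, ?_, ?_, ?_⟩
    · rw [hx1]; exact Or.inl ⟨t', hmem, rfl⟩
    · rw [hx2]; exact Or.inr (Or.inl ⟨t', hmem, rfl⟩)
    · rw [hx3]; exact Or.inr (Or.inr ⟨t', hmem, rfl⟩)
  refine ⟨F', (hS.image _).union ((hS.image _).union (hS.image _)), ?_, ?_, ?_⟩
  · intro p
    obtain ⟨g, hg⟩ := h0 p
    obtain ⟨x, hx, -⟩ := key (p, p, p) ⟨(mul_en p).symm, (mul_en p).symm⟩ ⟨g, hg, hg, hg⟩
    exact ⟨x, hx⟩
  · intro p q hpq
    obtain ⟨g, g1, g2⟩ := h1 _ _ hpq.1
    obtain ⟨x, hx, hx', -⟩ := key (p, q, q) ⟨hpq.2, hpq.2⟩ ⟨g, g1, g2, g2⟩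
    exact ⟨x, hx, hx'⟩
  · intro p q r h
    obtain ⟨g, g1, g2, g3⟩ := h2 _ _ _ h.1
    exact key (p, q, r) ⟨h.2.1, h.2.2⟩ ⟨g, g1, g2, g3⟩

end Pool.Agent.H54.CX
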