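import Pool.Agent.H54.CX.Cov

/-!
# The universal cover is simply connected

The monoid of the classes of `X` acts from the right on the pairs of a vertex of the cover and a class of the cover (and
a point for undefined products): the letter `y` moves `(p, w)` to `(p y, w (p y))`. So the class of an edge path of the
cover from the base point to `p` is determined by `p`.
-/

set_option autoImplicit false

namespace Pool.Agent.H54.CX

open Cls CV

variable {V : Type} {X : Cpx V} {x₀ : V}

open Classical in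
/-- the action of a letter -/
noncomputable def stp (X : Cpx V) (x₀ : V) (y : V) :
    Function.End (Option (CV X x₀ × Cls (cov X x₀)))
  | none => none
  | some (p, w) => if h : X.Near (en p) y then some (nx p y h, w * pt _ (nx p y h)) else none

theorem stp_some {y : V} {p : CV X x₀} (h : X.Near (en p) y) (w : Cls (cov X x₀)) :
    stp X x₀ y (some (p, w)) = some (nx p y h, w * pt _ (nx p y h)) := dif_pos h

theorem stp_none {y : V} {p : CV X x₀} (h : ¬ X.Near (en p) y) (w : Cls (cov X x₀)) :
    stp X x₀ y (some (p, w)) = none := dif_neg h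

theorem near_nx (p : CV X x₀) (b : V) (h : X.Near (en p) b) : (cov X x₀).Near p (nx p b h) := by
  rcases h with h | h
  · left
    exact CV.ext (by rw [nx_val, ← h, mul_en])
  · right
    refine ⟨?_, ?_⟩
    · rw [en_nx]; exact h
    · rw [en_nx, nx_val]

theorem stp_stay (y : V) (s : Option (CV X x₀ × Cls (cov X x₀))) :
    stp X x₀ y (stp X x₀ y s) = stp X x₀ y s := by
  rcases s with _ | ⟨p, w⟩
  · rfl
  by_cases h : X.Near (en p) y
  · have h2 : X.Near (en (nx p y h)) y := Or.inl (en_nx _ _ _)
    have h3 : nx (nx p y h) y h2 = nx p y h :=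
      CV.ext (by rw [nx_val, nx_val, mul_assoc, stay])
    rw [stp_some h, stp_some h2, h3, mul_assoc, stay]
  · rw [stp_none h]; rfl

theorem stp_back (a b : V) (hab : X.Edge a b) (s : Option (CV X x₀ × Cls (cov X x₀))) :
    stp X x₀ a (stp X x₀ b (stp X x₀ a s)) = stp X x₀ a s := by
  rcases s with _ | ⟨p, w⟩
  · rfl
  by_cases h : X.Near (en p) a
  · have h2 : X.Near (en (nx p a h)) b := by rw [en_nx]; exact Or.inr hab
    have h3 : X.Near (en (nx (nx p a h) b h2)) a := by
      rw [en_nx]; exact Or.inr (X.symm _ _ hab)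
    have h4 : nx (nx (nx p a h) b h2) a h3 = nx p a h :=
      CV.ext (by
        rw [nx_val, nx_val, nx_val, mul_assoc, mul_assoc, ← mul_assoc (pt X a), back hab])
    have h5 := near_back (near_nx (nx p a h) b h2)
    rw [stp_some h, stp_some h2, stp_some h3, h4, mul_assoc, mul_assoc, ← mul_assoc (pt _ (nx p a h)),
      h5]
  · rw [stp_none h]; rfl

theorem stp_tri (a b c : V) (habc : X.Tri a b c) (s : Option (CV X x₀ × Cls (cov X x₀))) :
    stp X x₀ c (stp X x₀ b (stp X x₀ a s)) = stp X x₀ c (stp X x₀ a s) := by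
  rcases s with _ | ⟨p, w⟩
  · rfl
  by_cases h : X.Near (en p) a
  · have hab := X.edge _ _ _ habc
    have hbc := X.edge _ _ _ (X.rot _ _ _ habc)
    have hac := X.symm _ _ (X.edge _ _ _ (X.rot _ _ _ (X.rot _ _ _ habc)))
    have h2 : X.Near (en (nx p a h)) b := by rw [en_nx]; exact Or.inr hab
    have h3 : X.Near (en (nx (nx p a h) b h2)) c := by rw [en_nx]; exact Or.inr hbc
    have h3' : X.Near (en (nx p a h)) c := by rw [en_nx]; exact Or.inr hac
    have h4 : nx (nx (nx p a h) b h2) c h3 = nx (nx p a h) c h3' :=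
      CV.ext (by
        rw [nx_val, nx_val, nx_val, nx_val, nx_val, mul_assoc, mul_assoc, ← mul_assoc (pt X a),
          tri habc, ← mul_assoc])
    have h5 : (cov X x₀).Tri (nx p a h) (nx (nx p a h) b h2) (nx (nx p a h) c h3') := by
      refine ⟨?_, ?_, ?_⟩
      · rw [en_nx, en_nx, en_nx]; exact habc
      · rw [nx_val (nx p a h) b, en_nx]
      · rw [nx_val (nx p a h) c, en_nx]
    rw [stp_some h, stp_some h2, stp_some h3, stp_some h3', h4, mul_assoc, mul_assoc,
      ← mul_assoc (pt _ (nx p a h)), tri h5, ← mul_assoc]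
  · rw [stp_none h]; rfl

/-- the action of the monoid of the classes -/
noncomputable def stpHom (X : Cpx V) (x₀ : V) :
    Cls X →* (Function.End (Option (CV X x₀ × Cls (cov X x₀))))ᵐᵒᵖ :=
  lift (fun y => MulOpposite.op (stp X x₀ y))
    (fun a => congrArg MulOpposite.op (funext (stp_stay a)))
    (fun a b h => congrArg MulOpposite.op (funext (stp_back a b h)))
    (fun a b c h => congrArg MulOpposite.op (funext (stp_tri a b c h)))

theorem stpHom_mul_pt (q : Cls X) (y : V) (s : Option (CV X x₀ × Cls (cov X x₀))) :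
    (stpHom X x₀ (q * pt X y)).unop s = stp X x₀ y ((stpHom X x₀ q).unop s) := by
  rw [map_mul]
  show (stpHom X x₀ (pt X y)).unop ((stpHom X x₀ q).unop s) = _
  rw [show stpHom X x₀ (pt X y) = MulOpposite.op (stp X x₀ y) from lift_pt _ _ _ _ _]
  rfl

/-- the base point -/
def base (X : Cpx V) (x₀ : V) : CV X x₀ := ⟨pt X x₀, x₀, PC.base⟩

theorem en_base : en (base X x₀) = x₀ := en_eq PC.base

theorem stpHom_path {p : CV X x₀} {P : Cls (cov X x₀)} (h : PC (cov X x₀) (base X x₀) p P) :
    (stpHom X x₀ p.1).unop (some (base X x₀, 1)) = some (p, P) := by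
  induction h with
  | base =>
    have h1 := stpHom_mul_pt (X := X) (x₀ := x₀) 1 x₀ (some (base X x₀, 1))
    rw [one_mul, map_one] at h1
    have h2 : X.Near (en (base X x₀)) x₀ := Or.inl en_base
    have h3 : nx (base X x₀) x₀ h2 = base X x₀ := CV.ext (by rw [nx_val]; exact stay _)
    show (stpHom X x₀ (pt X x₀)).unop (some (base X x₀, 1)) = _
    rw [h1]
    show stp X x₀ x₀ (some (base X x₀, 1)) = _
    rw [stp_some h2, h3, one_mul]
  | @step p p' P h h' ih =>
    have h1 : X.Near (en p) (en p') := by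
      rcases h' with h' | h'
      · exact Or.inl (by rw [h'])
      · exact Or.inr h'.1
    have h2 : p' = nx p (en p') h1 := by
      refine CV.ext ?_
      rw [nx_val]
      rcases h' with h' | h'
      · rw [h', mul_en]
      · exact h'.2
    have h3 : p'.1 = p.1 * pt X (en p') := by rw [← nx_val p _ h1, ← h2]
    rw [h3, stpHom_mul_pt, ih, stp_some h1, ← h2]

theorem cov_conn (p : CV X x₀) : ∃ P, PC (cov X x₀) (base X x₀) p P := by
  obtain ⟨q, b, h⟩ := p
  induction h with
  | base => exact ⟨_, PC.base⟩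
  | @step b c q h h' ih =>
    obtain ⟨P, hP⟩ := ih
    have h1 : X.Near (en ⟨q, b, h⟩) c := by rw [en_eq (p := ⟨q, b, h⟩) h]; exact h'
    exact ⟨_, hP.step (near_nx ⟨q, b, h⟩ c h1)⟩

theorem cov_sc : (cov X x₀).SC := by
  refine sc_iff.2 ⟨⟨base X x₀⟩, ?_, ?_⟩
  · intro p q
    obtain ⟨P, hP⟩ := cov_conn p
    obtain ⟨Q, hQ⟩ := cov_conn q
    obtain ⟨R, hR, -, -⟩ := hP.exists_rev
    exact ⟨_, hR.trans hQ⟩
  · intro p Q hQ
    obtain ⟨P, hP⟩ := cov_conn p
    obtain ⟨R, hR, -, h2⟩ := hP.exists_rev
    have h3 := stpHom_path hP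
    rw [stpHom_path (hP.trans hQ)] at h3
    have h4 : P * Q = P := by
      have := Option.some.inj h3
      exact (Prod.ext_iff.1 this).2
    have h5 : R * (P * Q) = R * P := by rw [h4]
    rw [← mul_assoc, h2, hQ.pt_mul] at h5
    exact h5

end Pool.Agent.H54.CX
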