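import Pool.Agent.H54.CX.PC

/-!
# The group of the lifts to the universal cover

Let `G` act on the complex `X` and let `x₀` be a vertex. The group consists of the pairs `(g, q)` where `g ∈ G` and `q` is
the class of an edge path from `x₀` to `g x₀`, with the product `(g, q) (h, r) = (g h, q (g r))`.
-/

set_option autoImplicit false

namespace Pool.Agent.H54.CX

open Cls

variable {V : Type} {X : Cpx V} {G : Type} [Group G] [MulAction G V]

/-- the action on the classes -/
def act (hX : X.Inv G) (g : G) : Cls X →* Cls X :=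
  lift (fun a => pt X (g • a)) (fun a => stay _) (fun a b h => back (hX.edge g a b h))
    (fun a b c h => tri (hX.tri g a b c h))

theorem act_pt (hX : X.Inv G) (g : G) (a : V) : act hX g (pt X a) = pt X (g • a) := lift_pt _ _ _ _ _

theorem act_one (hX : X.Inv G) (q : Cls X) : act hX 1 q = q := by
  have : act hX 1 = MonoidHom.id (Cls X) := hom_ext (fun a => by
    rw [act_pt, one_smul]; rfl)
  rw [this]; rfl

theorem act_mul (hX : X.Inv G) (g h : G) (q : Cls X) : act hX (g * h) q = act hX g (act hX h q) := by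
  have : act hX (g * h) = (act hX g).comp (act hX h) := hom_ext (fun a => by
    rw [act_pt, MonoidHom.comp_apply, act_pt, act_pt, mul_smul])
  rw [this]; rfl

theorem near_smul (hX : X.Inv G) (g : G) {a b : V} (h : X.Near a b) : X.Near (g • a) (g • b) := by
  rcases h with h | h
  · exact Or.inl (by rw [h])
  · exact Or.inr (hX.edge g a b h)

theorem PC.smul (hX : X.Inv G) (g : G) {a b : V} {q : Cls X} (h : PC X a b q) :
    PC X (g • a) (g • b) (act hX g q) := by
  induction h with
  | base => rw [act_pt]; exact PC.base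
  | step h h' ih => rw [map_mul, act_pt]; exact ih.step (near_smul hX g h')

/-- the group of the lifts -/
@[ext]
structure Gam (X : Cpx V) (G : Type) [Group G] [MulAction G V] (hX : X.Inv G) (x₀ : V) : Type where
  g : G
  q : Cls X
  pc : PC X x₀ (g • x₀) q

namespace Gam

variable {hX : X.Inv G} {x₀ : V}

instance : One (Gam X G hX x₀) := ⟨⟨1, pt X x₀, by rw [one_smul]; exact PC.base⟩⟩

instance : Mul (Gam X G hX x₀) :=
  ⟨fun x y => ⟨x.g * y.g, x.q * act hX x.g y.q, by
    rw [mul_smul]; exact x.pc.trans (y.pc.smul hX x.g)⟩⟩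

theorem one_g : (1 : Gam X G hX x₀).g = 1 := rfl
theorem one_q : (1 : Gam X G hX x₀).q = pt X x₀ := rfl
theorem mul_g (x y : Gam X G hX x₀) : (x * y).g = x.g * y.g := rfl
theorem mul_q (x y : Gam X G hX x₀) : (x * y).q = x.q * act hX x.g y.q := rfl

theorem exists_inv (x : Gam X G hX x₀) : ∃ y : Gam X G hX x₀, y * x = 1 := by
  obtain ⟨r, hr, -, h2⟩ := x.pc.exists_rev
  have hr' : PC X x₀ (x.g⁻¹ • x₀) (act hX x.g⁻¹ r) := by
    have := hr.smul hX x.g⁻¹
    rwa [inv_smul_smul] at this
  refine ⟨⟨x.g⁻¹, act hX x.g⁻¹ r, hr'⟩, ?_⟩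
  refine Gam.ext ?_ ?_
  · show x.g⁻¹ * x.g = 1
    exact inv_mul_cancel _
  · show act hX x.g⁻¹ r * act hX x.g⁻¹ x.q = pt X x₀
    rw [← map_mul, h2, act_pt, inv_smul_smul]

noncomputable instance : Group (Gam X G hX x₀) where
  mul_assoc x y z := Gam.ext (mul_assoc _ _ _) (by
    simp only [mul_q, mul_g, map_mul, act_mul, mul_assoc])
  one_mul x := Gam.ext (one_mul _) (by
    rw [mul_q, one_q, one_g, act_one, x.pc.pt_mul])
  mul_one x := Gam.ext (mul_one _) (by
    rw [mul_q, one_q, act_pt, x.pc.mul_pt])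
  inv x := (exists_inv x).choose
  inv_mul_cancel x := (exists_inv x).choose_spec

/-- the projection to `G` -/
def proj (X : Cpx V) (G : Type) [Group G] [MulAction G V] (hX : X.Inv G) (x₀ : V) :
    Gam X G hX x₀ →* G where
  toFun x := x.g
  map_one' := rfl
  map_mul' _ _ := rfl

theorem proj_apply (x : Gam X G hX x₀) : proj X G hX x₀ x = x.g := rfl

end Gam

/-- inclusion of complexes -/
structure Sub (X Y : Cpx V) : Prop where
  edge : ∀ a b, X.Edge a b → Y.Edge a b
  tri : ∀ a b c, X.Tri a b c → Y.Tri a b c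

/-- the map of the classes -/
def incl {X Y : Cpx V} (h : Sub X Y) : Cls X →* Cls Y :=
  lift (fun a => pt Y a) (fun a => stay _) (fun a b e => back (h.edge a b e))
    (fun a b c e => tri (h.tri a b c e))

theorem incl_pt {X Y : Cpx V} (h : Sub X Y) (a : V) : incl h (pt X a) = pt Y a := lift_pt _ _ _ _ _

theorem incl_mk {X Y : Cpx V} (h : Sub X Y) (l : List V) : incl h (mk X l) = mk Y l := by
  induction l with
  | nil => rw [mk_nil, map_one, mk_nil]
  | cons a l ih => rw [mk_cons, map_mul, incl_pt, ih, mk_cons]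

theorem incl_refl {X : Cpx V} (h : Sub X X) (q : Cls X) : incl h q = q := by
  have : incl h = MonoidHom.id (Cls X) := hom_ext (fun a => incl_pt h a)
  rw [this]; rfl

theorem incl_incl {X Y Z : Cpx V} (h : Sub X Y) (h' : Sub Y Z) (h'' : Sub X Z) (q : Cls X) :
    incl h' (incl h q) = incl h'' q := by
  have : (incl h').comp (incl h) = incl h'' := hom_ext (fun a => by
    rw [MonoidHom.comp_apply, incl_pt, incl_pt, incl_pt])
  rw [← this]; rfl

theorem incl_act {X Y : Cpx V} (h : Sub X Y) (hX : X.Inv G) (hY : Y.Inv G) (g : G) (q : Cls X) :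
    incl h (act hX g q) = act hY g (incl h q) := by
  have : (incl h).comp (act hX g) = (act hY g).comp (incl h) := hom_ext (fun a => by
    rw [MonoidHom.comp_apply, MonoidHom.comp_apply, incl_pt, act_pt, act_pt, incl_pt])
  exact DFunLike.congr_fun this q

theorem PC.incl {X Y : Cpx V} (h : Sub X Y) {a b : V} {q : Cls X} (hq : PC X a b q) :
    PC Y a b (CX.incl h q) := by
  induction hq with
  | base => rw [incl_pt]; exact PC.base
  | @step b c q h1 h2 ih =>
    rw [map_mul, incl_pt]
    refine ih.step ?_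
    rcases h2 with h2 | h2
    · exact Or.inl h2
    · exact Or.inr (h.edge _ _ h2)

/-- the map of the groups of the lifts -/
def Gam.map {X Y : Cpx V} (h : Sub X Y) (hX : X.Inv G) (hY : Y.Inv G) (x₀ : V) :
    Gam X G hX x₀ →* Gam Y G hY x₀ where
  toFun x := ⟨x.g, incl h x.q, x.pc.incl h⟩
  map_one' := Gam.ext rfl (incl_pt h x₀)
  map_mul' x y := Gam.ext rfl (by
    show incl h (x.q * act hX x.g y.q) = incl h x.q * act hY x.g (incl h y.q)
    rw [map_mul, incl_act h hX hY])

end Pool.Agent.H54.CX
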