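import Pool.Agent.H54.CX.Defs

/-!
# The monoid of the homotopy classes of lists of vertices
-/

set_option autoImplicit false

namespace Pool.Agent.H54.CX

variable {V : Type}

/-- homotopy classes of lists of vertices -/
def Cls (X : Cpx V) : Type := Quot X.Move

namespace Cls

variable {X : Cpx V}

/-- the class of a list -/
def mk (X : Cpx V) (l : List V) : Cls X := Quot.mk _ l

theorem mk_eq {l m : List V} : mk X l = mk X m ↔ X.Htp l m := Quot.eq

theorem sound {l m : List V} (h : X.Move l m) : mk X l = mk X m := Quot.sound h

theorem ind {p : Cls X → Prop} (h : ∀ l, p (mk X l)) (q : Cls X) : p q := Quot.ind h q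

theorem move_append_left (u : List V) {l m : List V} (h : X.Move l m) :
    X.Move (u ++ l) (u ++ m) := by
  cases h with
  | stay u' w a => simpa using Cpx.Move.stay (X := X) (u ++ u') w a
  | back u' w a b h => simpa using Cpx.Move.back (X := X) (u ++ u') w a b h
  | tri u' w a b c h => simpa using Cpx.Move.tri (X := X) (u ++ u') w a b c h

theorem move_append_right (v : List V) {l m : List V} (h : X.Move l m) :
    X.Move (l ++ v) (m ++ v) := by
  cases h with
  | stay u' w a => simpa using Cpx.Move.stay (X := X) u' (w ++ v) a
  | back u' w a b h => simpa using Cpx.Move.back (X := X) u' (w ++ v) a b h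
  | tri u' w a b c h => simpa using Cpx.Move.tri (X := X) u' (w ++ v) a b c h

instance : Monoid (Cls X) where
  mul p q := Quot.map₂ (fun l m => l ++ m) (fun u _ _ h => move_append_left u h)
    (fun _ _ v h => move_append_right v h) p q
  one := mk X []
  mul_assoc p q r := by
    induction p using ind with | _ l
    induction q using ind with | _ m
    induction r using ind with | _ n
    exact congrArg (mk X) (List.append_assoc l m n)
  one_mul p := by
    induction p using ind with | _ l
    rfl
  mul_one p := by
    induction p using ind with | _ l
    exact congrArg (mk X) (List.append_nil l)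

theorem mk_nil : mk X [] = 1 := rfl

theorem mk_append (l m : List V) : mk X (l ++ m) = mk X l * mk X m := rfl

/-- the class of a list with one vertex -/
def pt (X : Cpx V) (a : V) : Cls X := mk X [a]

theorem mk_cons (a : V) (l : List V) : mk X (a :: l) = pt X a * mk X l := rfl

theorem stay (a : V) : pt X a * pt X a = pt X a := sound (Cpx.Move.stay [] [] a)

theorem back {a b : V} (h : X.Edge a b) : pt X a * pt X b * pt X a = pt X a :=
  sound (Cpx.Move.back [] [] a b h)

theorem tri {a b c : V} (h : X.Tri a b c) : pt X a * pt X b * pt X c = pt X a * pt X c :=
  sound (Cpx.Move.tri [] [] a b c h)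

/-- homomorphisms from the monoid of the classes -/
def lift {M : Type*} [Monoid M] (f : V → M) (h1 : ∀ a, f a * f a = f a)
    (h2 : ∀ a b, X.Edge a b → f a * f b * f a = f a)
    (h3 : ∀ a b c, X.Tri a b c → f a * f b * f c = f a * f c) : Cls X →* M where
  toFun := Quot.lift (fun l => (l.map f).prod) (by
    intro l m h
    cases h with
    | stay u w a => simp [← mul_assoc, h1]
    | back u w a b h =>
      have := h2 a b h
      simp only [List.map_append, List.map_cons, List.prod_append, List.prod_cons]
      rw [← mul_assoc (f b), ← mul_assoc (f a), ← mul_assoc (f a), this]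
    | tri u w a b c h =>
      have := h3 a b c h
      simp only [List.map_append, List.map_cons, List.prod_append, List.prod_cons]
      rw [← mul_assoc (f b), ← mul_assoc (f a), ← mul_assoc (f a), this, mul_assoc])
  map_one' := rfl
  map_mul' p q := by
    induction p using ind with | _ l
    induction q using ind with | _ m
    show (((l ++ m).map f).prod : M) = (l.map f).prod * (m.map f).prod
    rw [List.map_append, List.prod_append]

theorem lift_pt {M : Type*} [Monoid M] (f : V → M) (h1 h2 h3) (a : V) :
    lift (X := X) f h1 h2 h3 (pt X a) = f a := by
  show ([a].map f).prod = f a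
  simp

theorem lift_mk {M : Type*} [Monoid M] (f : V → M) (h1 h2 h3) (l : List V) :
    lift (X := X) f h1 h2 h3 (mk X l) = (l.map f).prod := rfl

/-- two homomorphisms which agree on the vertices are equal -/
theorem hom_ext {M : Type*} [Monoid M] {f g : Cls X →* M} (h : ∀ a, f (pt X a) = g (pt X a)) :
    f = g := by
  ext q
  induction q using ind with | _ l
  induction l with
  | nil => rw [mk_nil, map_one, map_one]
  | cons a l ih => rw [mk_cons, map_mul, map_mul, h, ih]

/-- the last vertex -/
def last (q : Cls X) : Option V := Quot.lift (fun l : List V => l.getLast?) (by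
  intro l m h
  cases h with
  | stay u w a => cases w <;> simp
  | back u w a b h => cases w <;> simp
  | tri u w a b c h => cases w <;> simp) q

theorem last_mk (l : List V) : last (mk X l) = l.getLast? := rfl

theorem last_mul_pt (q : Cls X) (a : V) : last (q * pt X a) = some a := by
  induction q using ind with | _ l
  show (l ++ [a]).getLast? = some a
  simp

theorem last_pt (a : V) : last (pt X a) = some a := rfl

end Cls

end Pool.Agent.H54.CX
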