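import Pool.Agent.H54.CX.Mon

/-!
# The classes of the edge paths
-/

set_option autoImplicit false

namespace Pool.Agent.H54.CX

open Cls

variable {V : Type} {X : Cpx V}

/-- `q` is the class of an edge path from `a` to `b` -/
inductive PC (X : Cpx V) (a : V) : V → Cls X → Prop
  | base : PC X a a (pt X a)
  | step {b c : V} {q : Cls X} : PC X a b q → X.Near b c → PC X a c (q * pt X c)

theorem near_symm {a b : V} (h : X.Near a b) : X.Near b a := by
  rcases h with h | h
  · exact Or.inl h.symm
  · exact Or.inr (X.symm _ _ h)

theorem near_back {a b : V} (h : X.Near a b) : pt X a * pt X b * pt X a = pt X a := by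
  rcases h with h | h
  · subst h; rw [stay, stay]
  · exact back h

namespace PC

theorem last {a b : V} {q : Cls X} (h : PC X a b q) : Cls.last q = some b := by
  cases h with
  | base => rfl
  | step h h' => exact last_mul_pt _ _

theorem mul_pt {a b : V} {q : Cls X} (h : PC X a b q) : q * Cls.pt X b = q := by
  cases h with
  | base => exact stay _
  | step h h' => rw [mul_assoc, stay]

theorem pt_mul {a b : V} {q : Cls X} (h : PC X a b q) : Cls.pt X a * q = q := by
  induction h with
  | base => exact stay _
  | step h h' ih => rw [← mul_assoc, ih]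

theorem trans {a b c : V} {q r : Cls X} (h : PC X a b q) (h' : PC X b c r) :
    PC X a c (q * r) := by
  induction h' with
  | base => rw [h.mul_pt]; exact h
  | step h1 h2 ih => rw [← mul_assoc]; exact ih.step h2

theorem of_near {a b : V} (h : X.Near a b) : PC X a b (Cls.pt X a * Cls.pt X b) :=
  PC.base.step h

/-- going back along an edge -/
theorem step_back {a b c : V} {q : Cls X} (h : PC X a b q) (h' : X.Near b c) :
    q * Cls.pt X c * Cls.pt X b = q := by
  have h1 : q * Cls.pt X c * Cls.pt X b = q * (Cls.pt X b * Cls.pt X c * Cls.pt X b) := by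
    rw [← mul_assoc, ← mul_assoc, h.mul_pt]
  rw [h1, near_back h', h.mul_pt]

/-- an inverse of a path class -/
theorem exists_rev {a b : V} {q : Cls X} (h : PC X a b q) :
    ∃ r, PC X b a r ∧ q * r = Cls.pt X a ∧ r * q = Cls.pt X b := by
  induction h with
  | base => exact ⟨Cls.pt X a, PC.base, stay _, stay _⟩
  | @step b c q h h' ih =>
    obtain ⟨r, hr, h1, h2⟩ := ih
    refine ⟨Cls.pt X c * r, ?_, ?_, ?_⟩
    · have := (PC.of_near (near_symm h')).trans hr
      rwa [mul_assoc, hr.pt_mul] at this
    · have h3 : q * Cls.pt X c * (Cls.pt X c * r) = q * Cls.pt X c * Cls.pt X b * r := by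
        rw [mul_assoc q, ← mul_assoc (Cls.pt X c), stay, mul_assoc (q * Cls.pt X c), hr.pt_mul,
          mul_assoc]
      rw [h3, h.step_back h', h1]
    · have h3 : Cls.pt X c * r * (q * Cls.pt X c) = Cls.pt X c * (r * q) * Cls.pt X c := by
        simp only [mul_assoc]
      rw [h3, h2]
      exact near_back (near_symm h')

theorem exists_list {a b : V} {q : Cls X} (h : PC X a b q) :
    ∃ l, X.Path l a b ∧ mk X l = q := by
  induction h with
  | base => exact ⟨[a], ⟨List.isChain_singleton _, rfl, rfl⟩, rfl⟩
  | @step b c q h h' ih =>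
    obtain ⟨l, hl, h1⟩ := ih
    refine ⟨l ++ [c], ⟨?_, ?_, ?_⟩, ?_⟩
    · rw [List.isChain_append]
      refine ⟨hl.chain, List.isChain_singleton _, ?_⟩
      intro x hx y hy
      rw [hl.last] at hx
      simp only [Option.mem_def, Option.some.injEq, List.head?_cons] at hx hy
      subst hx; subst hy
      exact h'
    · rw [List.head?_append, hl.head]; rfl
    · simp
    · rw [mk_append, h1]; rfl

theorem of_list {a b : V} {l : List V} (h : X.Path l a b) : PC X a b (mk X l) := by
  obtain ⟨h1, h2, h3⟩ := h
  induction l using List.reverseRecOn generalizing b with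
  | nil => simp at h2
  | append_singleton l c ih =>
    have hb : c = b := by simpa using h3
    subst hb
    rcases List.eq_nil_or_concat l with hl | ⟨l', d, hl⟩
    · subst hl
      have : c = a := by simpa using h2
      subst this
      exact PC.base
    · rw [mk_append]
      have hd : l.getLast? = some d := by rw [hl]; simp
      have h4 := List.isChain_append.1 h1
      refine PC.step (b := d) (ih h4.1 ?_ hd) (h4.2.2 d hd c rfl)
      rw [hl] at h2 ⊢
      simpa using h2

end PC

/-- simple connectivity in terms of the classes -/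
theorem sc_iff : X.SC ↔ Nonempty V ∧ (∀ a b, ∃ q, PC X a b q) ∧
    ∀ a q, PC X a a q → q = pt X a := by
  constructor
  · intro h
    refine ⟨h.nonempty, ?_, ?_⟩
    · intro a b
      obtain ⟨l, hl⟩ := h.conn a b
      exact ⟨_, PC.of_list hl⟩
    · intro a q hq
      obtain ⟨l, hl, rfl⟩ := hq.exists_list
      exact mk_eq.2 (h.contr a l hl)
  · rintro ⟨h0, h1, h2⟩
    refine ⟨h0, ?_, ?_⟩
    · intro a b
      obtain ⟨q, hq⟩ := h1 a b
      obtain ⟨l, hl, -⟩ := hq.exists_list
      exact ⟨l, hl⟩
    · intro a l hl
      exact mk_eq.1 (h2 a _ (PC.of_list hl))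

end Pool.Agent.H54.CX
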