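import Pool.Agent.H54.CX.Main

/-!
# Proper actions on two-dimensional complexes of nonpositive curvature, and the Farrell-Jones conjecture for A-theory

Let `X` be a simply connected simplicial complex of dimension at most two, all of whose triangles are Euclidean triangles,
such that every injective closed path in the link of a vertex has length at least `2π`. No finiteness condition is
imposed: `X` may be locally infinite and may have infinitely many shapes. Let `G` be a group acting on `X` with finite
stabilisers; the action need not be cocompact. Then `G` belongs to every class `C` of groups which is closed
under directed colimits and contains those groups which act in this way with finitely many orbits of simplices. The
latter are CAT(0) groups, so the class of the groups satisfying the Farrell-Jones conjecture for A-theory with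
coefficients and finite wreath products is such a class.

Examples: `X` the product of two trees, a Euclidean or hyperbolic building of dimension two (after a subdivision;
hyperbolic triangles can be replaced by Euclidean triangles with the same sides, which makes the angles larger).

Proof. Fix a vertex `x₀`. For a finite set `F` of vertices let `X(F)` be the subcomplex of the translates of the edges and
triangles with vertices in `F`. The links of `X(F)` are subgraphs of the links of `X`; this is the place where dimension
two is used. Let `G(F)` be the group of the pairs `(g, q)` where `g ∈ G` and `q` is the homotopy class in `X(F)` of an
edge path from `x₀` to `g x₀`, with the product `(g, q) (h, r) = (g h, q (g r))`. It acts on the universal cover of the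
component of `x₀` in `X(F)`, whose vertices are the homotopy classes of the edge paths which start at `x₀`. The links of
the universal cover are links of `X(F)`, the stabilisers are mapped injectively to stabilisers of `G`, and there are only
finitely many orbits of simplices. The universal cover is simply connected: the homotopy classes of lists of vertices
form a monoid, with the relations `a a = a`, `a b a = a` for edges and `a b c = a c` for triangles; it acts from the right
on the pairs of a vertex of the cover and a homotopy class of the cover, which shows that the class of an edge path of the
cover from the base point is determined by its end point. So `G(F)` is in the class. An edge path of `X` and a homotopy of
edge paths involve only finitely many simplices, and `X` is simply connected, so `G` is the directed colimit of the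
groups `G(F)`.
-/

set_option autoImplicit false

namespace Pool.Agent.H54.CX.Proper

open Pool.Agent.H54.CX

theorem result (C : (G : Type) → [Group G] → Prop) (hcat : Cat2 C) (hcol : ColimClosed C)
    (G : Type) [Group G] (V : Type) [MulAction G V] (X : Cpx V)
    (hsc : X.SC) (hlink : X.Link) (hinv : X.Inv G)
    (hst : ∀ v : V, Finite (MulAction.stabilizer G v)) : C G :=
  main hcat hcol hinv hsc hlink hst

end Pool.Agent.H54.CX.Proper
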